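import Mathlib

namespace Pool.Agent.Results.MP_23ee20_al.No

open Matrix Polynomial

abbrev Root : Type := {p : Fin 3 × Fin 3 // p.1 ≠ p.2}

def Root.neg (r : Root) : Root := ⟨(r.1.2, r.1.1), r.2.symm⟩

section Defs

variable {K : Type} [Field K] {G : Type} [Group G]

def x (π : Matrix.SpecialLinearGroup (Fin 3) K →* G) (r : Root) (t : K) : G :=
  π (Matrix.SpecialLinearGroup.transvection r.2 t)

def IsCarpet (A : Root → AddSubgroup K) : Prop :=
  ∀ r s u : Root, r.1.2 = s.1.1 → u.1 = (r.1.1, s.1.2) → ∀ a ∈ A r, ∀ b ∈ A s, a * b ∈ A u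

def E (π : Matrix.SpecialLinearGroup (Fin 3) K →* G) (A : Root → AddSubgroup K) (S : Set Root) :
    Subgroup G :=
  Subgroup.closure {g | ∃ r ∈ S, ∃ a ∈ A r, g = x π r a}

def AdmOn (π : Matrix.SpecialLinearGroup (Fin 3) K →* G) (A : Root → AddSubgroup K) (S : Set Root) :
    Prop :=
  ∀ r ∈ S, (E π A S : Set G) ∩ Set.range (x π r) = x π r '' (A r : Set K)

end Defs

noncomputable section

variable {F : Type} [Field F]

abbrev SL3 (F : Type) [Field F] : Type := Matrix.SpecialLinearGroup (Fin 3) (RatFunc F)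

def ph (F : Type) [Field F] : F[X] →+* RatFunc F := algebraMap F[X] (RatFunc F)

def sR (F : Type) [Field F] : AddSubgroup (RatFunc F) where
  carrier := {a | ∃ p, a = ph F p}
  zero_mem' := ⟨0, by simp⟩
  add_mem' := by
    rintro _ _ ⟨p, rfl⟩ ⟨q, rfl⟩
    exact ⟨p + q, by simp⟩
  neg_mem' := by
    rintro _ ⟨p, rfl⟩
    exact ⟨-p, by simp⟩

def sI (F : Type) [Field F] : AddSubgroup (RatFunc F) where
  carrier := {a | ∃ p, a = ph F ((1 + X ^ 2) * p)}
  zero_mem' := ⟨0, by simp⟩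
  add_mem' := by
    rintro _ _ ⟨p, rfl⟩ ⟨q, rfl⟩
    exact ⟨p + q, by rw [← map_add, mul_add]⟩
  neg_mem' := by
    rintro _ ⟨p, rfl⟩
    exact ⟨-p, by rw [← map_neg, mul_neg]⟩

def sA (F : Type) [Field F] : AddSubgroup (RatFunc F) where
  carrier := {a | ∃ α p, a = ph F (C α * X + (1 + X ^ 2) * p)}
  zero_mem' := ⟨0, 0, by simp⟩
  add_mem' := by
    rintro _ _ ⟨α, p, rfl⟩ ⟨β, q, rfl⟩
    exact ⟨α + β, p + q, by rw [← map_add, C_add]; congr 1; ring⟩
  neg_mem' := by
    rintro _ ⟨α, p, rfl⟩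
    exact ⟨-α, -p, by rw [← map_neg, C_neg]; congr 1; ring⟩

def car (F : Type) [Field F] (r : Root) : AddSubgroup (RatFunc F) :=
  if r.1.1 = 2 then sI F else if r.1 = (0, 1) then sA F else sR F

theorem I_le_A {a : RatFunc F} (h : a ∈ sI F) : a ∈ sA F := by
  obtain ⟨p, rfl⟩ := h
  exact ⟨0, p, by simp⟩

theorem A_le_R {a : RatFunc F} (h : a ∈ sA F) : a ∈ sR F := by
  obtain ⟨α, p, rfl⟩ := h
  exact ⟨_, rfl⟩

theorem car_le_R {r : Root} {a : RatFunc F} (h : a ∈ car F r) : a ∈ sR F := by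
  unfold car at h
  split_ifs at h
  · exact A_le_R (I_le_A h)
  · exact A_le_R h
  · exact h

theorem mul_RR {a b : RatFunc F} (ha : a ∈ sR F) (hb : b ∈ sR F) : a * b ∈ sR F := by
  obtain ⟨p, rfl⟩ := ha
  obtain ⟨q, rfl⟩ := hb
  exact ⟨p * q, by simp⟩

theorem mul_IR {a b : RatFunc F} (ha : a ∈ sI F) (hb : b ∈ sR F) : a * b ∈ sI F := by
  obtain ⟨p, rfl⟩ := ha
  obtain ⟨q, rfl⟩ := hb
  exact ⟨p * q, by rw [← map_mul, mul_assoc]⟩

theorem car_two {r : Root} (h : r.1.1 = 2) : car F r = sI F := if_pos h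

theorem carpet : IsCarpet (car F) := by
  intro r s u h1 h2 a ha b hb
  by_cases h3 : u.1.1 = 2
  · have h4 : r.1.1 = 2 := by rw [← h3, h2]
    rw [car_two h4] at ha
    rw [car_two h3]
    exact mul_IR ha (car_le_R hb)
  · by_cases h5 : u.1 = (0, 1)
    · have h6 : s.1.1 = 2 := by
        have e1 : r.1.1 = 0 := congrArg Prod.fst (h2.symm.trans h5)
        have e2 : s.1.2 = 1 := congrArg Prod.snd (h2.symm.trans h5)
        have n1 := r.2
        have n2 := s.2
        rw [e1, h1] at n1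
        rw [e2] at n2
        revert n1 n2
        generalize s.1.1 = k
        revert k
        decide
      rw [car_two h6] at hb
      have : car F u = sA F := by
        unfold car
        rw [if_neg h3, if_pos h5]
      rw [this, mul_comm]
      exact I_le_A (mul_IR hb (car_le_R ha))
    · have : car F u = sR F := by
        unfold car
        rw [if_neg h3, if_neg h5]
      rw [this]
      exact mul_RR (car_le_R ha) (car_le_R hb)

open Classical in
def v (F : Type) [Field F] : Valuation (RatFunc F) (WithZero (Multiplicative ℤ)) :=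
  RatFunc.inftyValuation F

theorem v_ph {p : F[X]} (hp : p ≠ 0) : v F (ph F p) = WithZero.exp (p.natDegree : ℤ) := by
  classical
  exact RatFunc.inftyValuation.polynomial F hp

theorem v_R {a : RatFunc F} (ha : a ∈ sR F) (h0 : a ≠ 0) : 1 ≤ v F a := by
  obtain ⟨p, rfl⟩ := ha
  have hp : p ≠ 0 := by
    rintro rfl
    exact h0 (map_zero _)
  rw [v_ph hp, ← WithZero.exp_zero, WithZero.exp_le_exp]
  positivity

theorem v_A {a : RatFunc F} (ha : a ∈ sA F) (h0 : a ≠ 0) : 1 < v F a := by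
  obtain ⟨α, p, rfl⟩ := ha
  have hp : C α * X + (1 + X ^ 2) * p ≠ 0 := by
    intro h
    rw [h] at h0
    exact h0 (map_zero _)
  rw [v_ph hp, ← WithZero.exp_zero, WithZero.exp_lt_exp]
  have hg : (1 + X ^ 2 : F[X]).natDegree = 2 := by compute_degree!
  have hg0 : (1 + X ^ 2 : F[X]) ≠ 0 := by
    intro h
    rw [h] at hg
    simp at hg
  have : 0 < (C α * X + (1 + X ^ 2) * p).natDegree := by
    by_cases h : p = 0
    · subst h
      have hα : α ≠ 0 := by
        rintro rfl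
        simp at hp
      simp [natDegree_C_mul_X _ hα]
    · have h1 : ((1 + X ^ 2) * p).natDegree = 2 + p.natDegree := by
        rw [natDegree_mul hg0 h, hg]
      have h2 : (C α * X).natDegree ≤ 1 := by compute_degree
      rw [natDegree_add_eq_right_of_natDegree_lt (by omega)]
      omega
  exact_mod_cast this

def t (r : Root) (a : RatFunc F) : SL3 F := Matrix.SpecialLinearGroup.transvection r.2 a

theorem t_add (r : Root) (a b : RatFunc F) : t r (a + b) = t r a * t r b :=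
  Matrix.SpecialLinearGroup.transvection_add r.2 a b

theorem t_zero (r : Root) : t r (0 : RatFunc F) = 1 :=
  Matrix.SpecialLinearGroup.transvection_coeff_zero r.2

theorem t_inv (r : Root) (a : RatFunc F) : (t r a)⁻¹ = t r (-a) :=
  Matrix.SpecialLinearGroup.transvection_inv r.2 a

theorem t_same (r : Root) (a : RatFunc F) (g : SL3 F) (l : Fin 3) :
    (t r a * g).1 r.1.1 l = g.1 r.1.1 l + a * g.1 r.1.2 l :=
  transvection_mul_apply_same _ _ l a g.1

theorem t_ne (r : Root) (a : RatFunc F) (g : SL3 F) {k : Fin 3} (hk : k ≠ r.1.1) (l : Fin 3) :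
    (t r a * g).1 k l = g.1 k l :=
  transvection_mul_apply_of_ne _ _ k l hk a g.1

theorem t_ent (r : Root) (a : RatFunc F) : (t r a).1 r.1.1 r.1.2 = a := by
  have := t_same r a 1 r.1.2
  rw [mul_one] at this
  rw [this]
  simp [Matrix.one_apply_ne r.2]

theorem t_row (r : Root) (a : RatFunc F) {k : Fin 3} (hk : k ≠ r.1.1) (l : Fin 3) :
    (t r a).1 k l = (1 : Matrix (Fin 3) (Fin 3) (RatFunc F)) k l := by
  have := t_ne r a 1 hk l
  rw [mul_one] at this
  exact this

def E0 (F : Type) [Field F] (S : Set Root) : Subgroup (SL3 F) :=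
  Subgroup.closure {g | ∃ r ∈ S, ∃ a ∈ car F r, g = t r a}

theorem ind {S : Set Root} {P : SL3 F → Prop} (h1 : P 1)
    (h2 : ∀ r ∈ S, ∀ a ∈ car F r, ∀ g, P g → P (t r a * g)) {g : SL3 F} (hg : g ∈ E0 F S) :
    P g := by
  induction hg using Subgroup.closure_induction_left with
  | one => exact h1
  | mul_left y hy g _ ih =>
    obtain ⟨r, hr, a, ha, rfl⟩ := hy
    exact h2 r hr a ha g ih
  | inv_mul_cancel y hy g _ ih =>
    obtain ⟨r, hr, a, ha, rfl⟩ := hy
    rw [t_inv]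
    exact h2 r hr _ (neg_mem ha) g ih

theorem inv_glob {S : Set Root} {g : SL3 F} (hg : g ∈ E0 F S) :
    (∀ i j, g.1 i j ∈ sR F) ∧ ∀ j, j ≠ 2 → g.1 2 j ∈ sI F := by
  refine ind (P := fun g => (∀ i j, g.1 i j ∈ sR F) ∧ ∀ j, j ≠ 2 → g.1 2 j ∈ sI F) ⟨?_, ?_⟩ ?_ hg
  · intro i j
    by_cases h : i = j
    · subst h
      exact ⟨1, by simp⟩
    · exact ⟨0, by simp [Matrix.one_apply_ne h]⟩
  · intro j hj
    exact ⟨0, by simp [Matrix.one_apply_ne hj.symm]⟩
  · rintro r - a ha g ⟨h1, h2⟩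
    refine ⟨fun i j => ?_, fun j hj => ?_⟩
    · by_cases h : i = r.1.1
      · rw [h, t_same]
        exact add_mem (h1 _ _) (mul_RR (car_le_R ha) (h1 _ _))
      · rw [t_ne _ _ _ h]
        exact h1 _ _
    · by_cases h : 2 = r.1.1
      · rw [car_two h.symm] at ha
        have := t_same r a g j
        rw [← h] at this
        rw [this]
        exact add_mem (h2 j hj) (mul_IR ha (h1 _ _))
      · rw [t_ne _ _ _ h]
        exact h2 j hj

theorem inv_diag {r : Root} {g : SL3 F} (hg : g ∈ E0 F {r, r.neg}) {k : Fin 3}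
    (h1 : k ≠ r.1.1) (h2 : k ≠ r.1.2) : g.1 k k = 1 := by
  refine ind (P := fun g => g.1 k k = 1) (by simp) ?_ hg
  rintro s hs a - g h
  rcases hs with rfl | rfl
  · rw [t_ne _ _ _ h1, h]
  · rw [t_ne _ _ _ h2, h]

def r01 : Root := ⟨(0, 1), by decide⟩
def r10 : Root := ⟨(1, 0), by decide⟩
def r02 : Root := ⟨(0, 2), by decide⟩
def r20 : Root := ⟨(2, 0), by decide⟩
def r12 : Root := ⟨(1, 2), by decide⟩
def r21 : Root := ⟨(2, 1), by decide⟩

inductive W (F : Type) [Field F] : Bool → SL3 F → Prop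
  | base (a : RatFunc F) (ha : a ∈ sA F) : W F true (t r01 a)
  | two (b : RatFunc F) (g : SL3 F) (hb : b ∈ sR F) (h0 : b ≠ 0) (hg : W F true g) :
      W F false (t r10 b * g)
  | one (a : RatFunc F) (g : SL3 F) (ha : a ∈ sA F) (h0 : a ≠ 0) (hg : W F false g) :
      W F true (t r01 a * g)

theorem W_one {a : RatFunc F} (ha : a ∈ sA F) {g : SL3 F} (hg : W F false g) :
    ∃ c, W F c (t r01 a * g) := by
  by_cases h : a = 0
  · rw [h, t_zero, one_mul]
    exact ⟨_, hg⟩
  · exact ⟨_, W.one a g ha h hg⟩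

theorem W_two {b : RatFunc F} (hb : b ∈ sR F) {g : SL3 F} (hg : W F true g) :
    ∃ c, W F c (t r10 b * g) := by
  by_cases h : b = 0
  · rw [h, t_zero, one_mul]
    exact ⟨_, hg⟩
  · exact ⟨_, W.two b g hb h hg⟩

theorem W_all {S : Set Root} (hS : ∀ r ∈ S, r = r01 ∨ r = r10) {g : SL3 F} (hg : g ∈ E0 F S) :
    ∃ c, W F c g := by
  refine ind (P := fun g => ∃ c, W F c g) ⟨true, ?_⟩ ?_ hg
  · rw [← t_zero r01]
    exact W.base 0 (zero_mem _)
  · rintro r hr a ha g ⟨c, hc⟩
    rcases hS r hr with rfl | rfl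
    · have ha' : a ∈ sA F := ha
      cases hc with
      | base a' h' =>
        rw [← t_add]
        exact ⟨_, W.base _ (add_mem ha' h')⟩
      | two b g hb h0 hg => exact W_one ha' (W.two b g hb h0 hg)
      | one a' g h' h0 hg =>
        rw [← mul_assoc, ← t_add]
        exact W_one (add_mem ha' h') hg
    · have ha' : a ∈ sR F := ha
      cases hc with
      | base a' h' => exact W_two ha' (W.base a' h')
      | two b g hb h0 hg =>
        rw [← mul_assoc, ← t_add]
        exact W_two (add_mem ha' hb) hg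
      | one a' g h' h0 hg => exact W_two ha' (W.one a' g h' h0 hg)

theorem W_inv {c : Bool} {g : SL3 F} (h : W F c g) :
    (c = true → ((∃ a ∈ sA F, g = t r01 a) ∨ g.1 1 0 ≠ 0) ∧ v F (g.1 1 0) < v F (g.1 0 0)) ∧
      (c = false → g.1 1 0 ≠ 0 ∧ v F (g.1 0 0) ≤ v F (g.1 1 0)) := by
  induction h with
  | base a ha =>
    refine ⟨fun _ => ⟨Or.inl ⟨a, ha, rfl⟩, ?_⟩, fun h => by simp at h⟩
    have e1 : (t r01 a).1 1 0 = 0 := by
      rw [t_row r01 a (by decide)]
      simp
    have e2 : (t r01 a).1 0 0 = 1 := by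
      have := t_same r01 a 1 0
      rw [mul_one] at this
      refine this.trans ?_
      simp [r01]
    rw [e1, e2]
    simp
  | two b g hb h0 hg ih =>
    refine ⟨fun h => by simp at h, fun _ => ?_⟩
    have h1 := (ih.1 rfl).2
    have e1 : (t r10 b * g).1 1 0 = g.1 1 0 + b * g.1 0 0 := t_same r10 b g 0
    have e2 : (t r10 b * g).1 0 0 = g.1 0 0 := t_ne r10 b g (by decide) 0
    have h2 : v F (g.1 0 0) ≤ v F (b * g.1 0 0) := by
      rw [map_mul]
      exact le_mul_of_one_le_left' (v_R hb h0)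
    have h3 : v F (g.1 1 0 + b * g.1 0 0) = v F (b * g.1 0 0) :=
      Valuation.map_add_eq_of_lt_right _ (h1.trans_le h2)
    rw [e1, e2, h3]
    refine ⟨fun h => ?_, h2⟩
    rw [h, map_zero] at h3
    rw [← h3] at h2
    exact absurd (h1.trans_le h2) (by simp)
  | one a g ha h0 hg ih =>
    refine ⟨fun _ => ?_, fun h => by simp at h⟩
    obtain ⟨h1, h2⟩ := ih.2 rfl
    have e1 : (t r01 a * g).1 0 0 = g.1 0 0 + a * g.1 1 0 := t_same r01 a g 0
    have e2 : (t r01 a * g).1 1 0 = g.1 1 0 := t_ne r01 a g (by decide) 0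
    have h4 : 0 < v F (g.1 1 0) := (Valuation.pos_iff _).2 h1
    have h3 : v F (g.1 1 0) < v F (a * g.1 1 0) := by
      rw [map_mul]
      exact lt_mul_of_one_lt_left h4 (v_A ha h0)
    rw [e1, e2, Valuation.map_add_eq_of_lt_right _ (h2.trans_lt h3)]
    exact ⟨Or.inr h1, h3⟩

theorem rank_one {r s : Root} (hs : s ∈ ({r, r.neg} : Set Root)) {c : RatFunc F}
    (hc : t s c ∈ E0 F {r, r.neg}) : c ∈ car F s := by
  obtain ⟨h1, h2⟩ := inv_glob hc
  unfold car
  split_ifs with h3 h4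
  · have := h2 s.1.2 (h3 ▸ s.2.symm)
    rwa [← h3, t_ent] at this
  · have e : s = r01 := Subtype.ext h4
    subst e
    have hS : ∀ u ∈ ({r, r.neg} : Set Root), u = r01 ∨ u = r10 := by
      intro u hu
      rcases hs with h | h
      · rcases hu with rfl | rfl
        · exact Or.inl h.symm
        · rw [← h]
          exact Or.inr rfl
      · have h' : r = r10 := congrArg Root.neg h.symm
        rcases hu with rfl | rfl
        · exact Or.inr h'
        · exact Or.inl h.symm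
    obtain ⟨b, hb⟩ := W_all hS hc
    have e1 : (t r01 c).1 1 0 = 0 := by
      rw [t_row r01 c (by decide)]
      simp
    cases b with
    | false => exact absurd e1 ((W_inv hb).2 rfl).1
    | true =>
      rcases ((W_inv hb).1 rfl).1 with ⟨a, ha, h⟩ | h
      · have := congrArg (fun g : SL3 F => g.1 r01.1.1 r01.1.2) h
        simp only [t_ent] at this
        rwa [this]
      · exact absurd e1 h
  · have := h1 s.1.1 s.1.2
    rwa [t_ent] at this

theorem mem_E0 (r : Root) {a : RatFunc F} (ha : a ∈ car F r) : t r a ∈ E0 F Set.univ :=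
  Subgroup.subset_closure ⟨r, trivial, a, ha, rfl⟩

theorem c01 (a : RatFunc F) : (t r01 a).1 = !![1, a, 0; 0, 1, 0; 0, 0, 1] := by
  ext i j
  fin_cases i <;> fin_cases j <;> simp [t, r01, Matrix.SpecialLinearGroup.transvection, transvection]

theorem c10 (a : RatFunc F) : (t r10 a).1 = !![1, 0, 0; a, 1, 0; 0, 0, 1] := by
  ext i j
  fin_cases i <;> fin_cases j <;> simp [t, r10, Matrix.SpecialLinearGroup.transvection, transvection]

theorem c02 (a : RatFunc F) : (t r02 a).1 = !![1, 0, a; 0, 1, 0; 0, 0, 1] := by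
  ext i j
  fin_cases i <;> fin_cases j <;> simp [t, r02, Matrix.SpecialLinearGroup.transvection, transvection]

theorem c20 (a : RatFunc F) : (t r20 a).1 = !![1, 0, 0; 0, 1, 0; a, 0, 1] := by
  ext i j
  fin_cases i <;> fin_cases j <;> simp [t, r20, Matrix.SpecialLinearGroup.transvection, transvection]

theorem c12 (a : RatFunc F) : (t r12 a).1 = !![1, 0, 0; 0, 1, a; 0, 0, 1] := by
  ext i j
  fin_cases i <;> fin_cases j <;> simp [t, r12, Matrix.SpecialLinearGroup.transvection, transvection]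

theorem c21 (a : RatFunc F) : (t r21 a).1 = !![1, 0, 0; 0, 1, 0; 0, a, 1] := by
  ext i j
  fin_cases i <;> fin_cases j <;> simp [t, r21, Matrix.SpecialLinearGroup.transvection, transvection]

theorem mulc (a b : SL3 F) : (a * b).1 = a.1 * b.1 := rfl

def hh (y : RatFunc F) : SL3 F :=
  t r20 (-(1 + y ^ 2)) * t r10 (y + 1) * t r02 1 * t r01 y * t r12 (-2) * t r10 (2 * y - 1) *
    t r01 y * t r21 (1 + y ^ 2)

theorem hh_coe (y : RatFunc F) : (hh y).1 =
    !![1 - y + 2 * y ^ 2, 1, 1 - 2 * y; 2 * y + y ^ 2 + 2 * y ^ 3, 0, -1 - y - 2 * y ^ 2;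
      -1 + y - 3 * y ^ 2 + y ^ 3 - 2 * y ^ 4, 0, 2 * y - y ^ 2 + 2 * y ^ 3] := by
  simp only [hh, mulc, c01, c10, c02, c20, c12, c21, Matrix.mul_fin_three]
  ext i j
  fin_cases i <;> fin_cases j <;> simp <;> ring

theorem key (y : RatFunc F) : t r01 1 * t r02 (1 + y + 2 * y ^ 2) * hh y =
    t r01 ((1 + y ^ 2) * (1 - 2 * y)) * hh y * t r10 (-1) := by
  apply Subtype.ext
  simp only [mulc, c01, c10, c02, hh_coe, Matrix.mul_fin_three]
  ext i j
  fin_cases i <;> fin_cases j <;> simp <;> ring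

theorem one_mem_E0 : t r01 (1 : RatFunc F) ∈ E0 F Set.univ := by
  have hR : ∀ (r : Root) (p : F[X]), car F r = sR F → t r (ph F p) ∈ E0 F Set.univ :=
    fun r p h => mem_E0 r (h ▸ ⟨p, rfl⟩)
  have hI : ∀ (r : Root) (p : F[X]), car F r = sI F →
      t r (ph F ((1 + X ^ 2) * p)) ∈ E0 F Set.univ := fun r p h => mem_E0 r (h ▸ ⟨p, rfl⟩)
  have a1 := hI r20 (-1) rfl
  have a2 := hR r10 (X + 1) rfl
  have a3 := hR r02 1 rfl
  have a4 : t r01 (ph F X) ∈ E0 F Set.univ := mem_E0 r01 ⟨1, 0, by simp⟩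
  have a5 := hR r12 (-2) rfl
  have a6 := hR r10 (2 * X - 1) rfl
  have a7 := hI r21 1 rfl
  have a8 := hR r02 (1 + X + 2 * X ^ 2) rfl
  have a9 : t r01 (ph F ((1 + X ^ 2) * (1 - 2 * X))) ∈ E0 F Set.univ :=
    mem_E0 r01 (I_le_A ⟨_, rfl⟩)
  have a10 := hR r10 (-1) rfl
  simp only [map_mul, map_add, map_sub, map_neg, map_one, map_pow, map_ofNat, mul_neg,
    mul_one] at a1 a2 a3 a5 a6 a7 a8 a9 a10
  have hH : hh (ph F X) ∈ E0 F Set.univ :=
    mul_mem (mul_mem (mul_mem (mul_mem (mul_mem (mul_mem (mul_mem a1 a2) a3) a4) a5) a6) a4) a7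
  have e : t r01 (1 : RatFunc F) = t r01 ((1 + ph F X ^ 2) * (1 - 2 * ph F X)) * hh (ph F X) *
      t r10 (-1) * (hh (ph F X))⁻¹ * (t r02 (1 + ph F X + 2 * ph F X ^ 2))⁻¹ := by
    rw [← key]
    group
  rw [e]
  exact mul_mem (mul_mem (mul_mem (mul_mem a9 hH) a10) (inv_mem hH)) (inv_mem a8)

theorem E_eq {G : Type} [Group G] (π : SL3 F →* G) (S : Set Root) :
    E π (car F) S = (E0 F S).map π := by
  rw [E0, MonoidHom.map_closure, E]
  congr 1
  ext g
  constructor
  · rintro ⟨r, hr, a, ha, rfl⟩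
    exact ⟨_, ⟨r, hr, a, ha, rfl⟩, rfl⟩
  · rintro ⟨_, ⟨r, hr, a, ha, rfl⟩, rfl⟩
    exact ⟨r, hr, a, ha, rfl⟩

theorem third (r : Root) : ∃ k : Fin 3, k ≠ r.1.1 ∧ k ≠ r.1.2 := by
  revert r
  decide

end

theorem result (F : Type) [Field F] :
    ∃ A : Root → AddSubgroup (RatFunc F), IsCarpet A ∧ (∀ r, A r ≠ ⊥) ∧
      ∀ (G : Type) [Group G] (π : Matrix.SpecialLinearGroup (Fin 3) (RatFunc F) →* G),
        π.ker ≤ Subgroup.center _ →
          (∀ r : Root, AdmOn π A {r, r.neg}) ∧ ¬ AdmOn π A Set.univ := by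
  refine ⟨car F, carpet, fun r h => ?_, fun G _ π hπ => ⟨fun r s hs => ?_, fun h => ?_⟩⟩
  · have h1 : ph F ((1 + X ^ 2) * 1) ∈ car F r := by
      unfold car
      split_ifs
      · exact ⟨1, rfl⟩
      · exact I_le_A ⟨1, rfl⟩
      · exact ⟨_, rfl⟩
    rw [h, AddSubgroup.mem_bot] at h1
    have h2 : ((1 + X ^ 2) * 1 : F[X]) = 0 :=
      RatFunc.algebraMap_injective F (h1.trans (map_zero _).symm)
    have := congrArg (fun p : F[X] => p.coeff 0) h2
    simp at this
  · refine Set.Subset.antisymm ?_ ?_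
    · rintro _ ⟨hy, c, rfl⟩
      rw [E_eq] at hy
      obtain ⟨g, hg, hgc⟩ := hy
      have hk : t s c * g⁻¹ ∈ π.ker := by
        rw [MonoidHom.mem_ker, map_mul, map_inv, hgc]
        exact mul_inv_cancel _
      obtain ⟨ρ, -, hρ⟩ := Matrix.SpecialLinearGroup.mem_center_iff.1 (hπ hk)
      obtain ⟨k, hk1, hk2⟩ := third r
      have hks : k ≠ s.1.1 := by
        rcases hs with rfl | rfl
        · exact hk1
        · exact hk2
      have e1 : (t s c).1 = scalar (Fin 3) ρ * g.1 := by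
        rw [hρ, ← mulc, inv_mul_cancel_right]
      have e2 : ρ = 1 := by
        have := congrFun (congrFun e1 k) k
        rw [t_row s c hks, scalar_apply, diagonal_mul, inv_diag hg hk1 hk2] at this
        simpa using this.symm
      have e3 : t s c = g := by
        apply Subtype.ext
        rw [e1, e2, map_one, one_mul]
      exact ⟨c, rank_one hs (e3 ▸ hg), rfl⟩
    · rintro _ ⟨a, ha, rfl⟩
      exact ⟨Subgroup.subset_closure ⟨s, hs, a, ha, rfl⟩, a, rfl⟩
  · have h1 : x π r01 1 ∈ (E π (car F) Set.univ : Set G) ∩ Set.range (x π r01) := by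
      refine ⟨?_, 1, rfl⟩
      rw [E_eq]
      exact ⟨_, one_mem_E0, rfl⟩
    rw [h r01 trivial] at h1
    obtain ⟨a, ha, h2⟩ := h1
    have hk : t r01 (a + -1) ∈ π.ker := by
      rw [MonoidHom.mem_ker, t_add, ← t_inv, map_mul, map_inv]
      exact mul_inv_eq_one.2 h2
    have h3 := (Matrix.SpecialLinearGroup.transvection_mem_center_iff r01.2 _).1 (hπ hk)
    have h4 : a = 1 := by linear_combination h3
    subst h4
    have := v_A (a := (1 : RatFunc F)) ha one_ne_zero
    simp at this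

end Pool.Agent.Results.MP_23ee20_al.No
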